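import Pool.Agent.Helper37_BSig.Stmts

/-!
# RedBasics
-/

namespace Pool.Agent.BSig.H14

open Filter Pool.Agent.BSig

theorem not_mem_zero (x : MM) : ¬ Mem x 0 := fun h =>
  absurd (mem_lt h) (not_lt.2 (PAExp.zero_le' x))

theorem one_ne_zero' : (1 : MM) ≠ 0 := fun h => PAExp.zero_ne_one' h.symm

theorem two_mul_inj {x y : MM} (h : 2 * x = 2 * y) : x = y := by
  obtain ⟨f, hf, rfl⟩ := exists_mk x; obtain ⟨g, hg, rfl⟩ := exists_mk y
  have h2 : (2 : MM) = mk (fun _ => 2) (bdd_const 2) := by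
    have := natCast_mk 2; rw [← this]; norm_num
  rw [h2, mk_mul, mk_mul, mk_eq] at h
  rw [mk_eq]
  filter_upwards [h] with n hn
  omega

theorem two_mul_ne {x y : MM} (h : 2 * x = 2 * y + 1) : False := by
  obtain ⟨f, hf, rfl⟩ := exists_mk x; obtain ⟨g, hg, rfl⟩ := exists_mk y
  have h2 : (2 : MM) = mk (fun _ => 2) (bdd_const 2) := by
    have := natCast_mk 2; rw [← this]; norm_num
  rw [h2, mk_one, mk_mul, mk_mul, mk_add, mk_eq] at h
  obtain ⟨n, hn⟩ := h.exists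
  omega

theorem parity (x : MM) : ∃ z, x = 2 * z ∨ x = 2 * z + 1 := by
  obtain ⟨f, hf, rfl⟩ := exists_mk x
  have h2 : (2 : MM) = mk (fun _ => 2) (bdd_const 2) := by
    have := natCast_mk 2; rw [← this]; norm_num
  have hb : Bdd (fun n => f n / 2) :=
    bdd_of_le hf (Eventually.of_forall fun n => Nat.div_le_self _ _)
  refine ⟨mk (fun n => f n / 2) hb, ?_⟩
  rw [h2, mk_one, mk_mul, mk_add, mk_eq, mk_eq, ← eventually_or']
  refine Eventually.of_forall fun n => ?_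
  beta_reduce
  omega

theorem le_two_mul (z : MM) : z ≤ 2 * z := by
  rw [two_mul]; exact le_add_right' _ _

theorem lt_succ (x : MM) : x < x + 1 := (PAExp.discrete _ _).2 le_rfl

theorem exists_union (a b : MM) : ∃ e : MM, ∀ x, Mem x e ↔ Mem x a ∨ Mem x b := by
  have h : Int1 (fun x => Mem x a ∨ Mem x b) := Int1.of_delta0
    ((IsDelta0.mem (IsTerm.var 0) (IsTerm.param a)).or
      (IsDelta0.mem (IsTerm.var 0) (IsTerm.param b)))
  obtain ⟨e, _, he⟩ := h.code (a + b)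
  refine ⟨e, fun x => ?_⟩
  rw [he]
  constructor
  · exact fun h => h.2
  · intro h
    refine ⟨?_, h⟩
    rcases h with h | h
    · exact (mem_lt h).trans_le (le_add_right' _ _)
    · exact (mem_lt h).trans_le (le_add_left' _ _)

/-- The image of a coded set under `x ↦ 2 x`. -/
theorem exists_even (K : MM) : ∃ e : MM, ∀ y, Mem y e ↔ ∃ x, Mem x K ∧ y = 2 * x := by
  have h : Int1 (fun y => ∃ x, x ≤ K ∧ (Mem x K ∧ y = 2 * x)) := Int1.of_delta0 <| by
    refine IsDelta0.ex (IsTerm.param K) ?_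
    exact (IsDelta0.mem (IsTerm.var 0) (IsTerm.param K)).and
      (IsDelta0.eq (IsTerm.var 1) ((IsTerm.param 2).mul (IsTerm.var 0)))
  obtain ⟨e, _, he⟩ := h.code (2 * K + 1)
  refine ⟨e, fun y => ?_⟩
  rw [he]
  constructor
  · rintro ⟨_, x, _, h1, h2⟩; exact ⟨x, h1, h2⟩
  · rintro ⟨x, h1, h2⟩
    refine ⟨?_, x, (mem_lt h1).le, h1, h2⟩
    rw [h2]
    refine lt_of_le_of_lt ?_ (lt_succ _)
    have := PAExp.mul_le_mul' _ _ 2 (mem_lt h1).le
    rwa [mul_comm x, mul_comm K] at this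

/-- The image of a coded set under `x ↦ 2 x + 1`. -/
theorem exists_odd (K : MM) : ∃ e : MM, ∀ y, Mem y e ↔ ∃ x, Mem x K ∧ y = 2 * x + 1 := by
  have h : Int1 (fun y => ∃ x, x ≤ K ∧ (Mem x K ∧ y = 2 * x + 1)) := Int1.of_delta0 <| by
    refine IsDelta0.ex (IsTerm.param K) ?_
    exact (IsDelta0.mem (IsTerm.var 0) (IsTerm.param K)).and
      (IsDelta0.eq (IsTerm.var 1) (((IsTerm.param 2).mul (IsTerm.var 0)).add (IsTerm.param 1)))
  obtain ⟨e, _, he⟩ := h.code (2 * K + 1 + 1)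
  refine ⟨e, fun y => ?_⟩
  rw [he]
  constructor
  · rintro ⟨_, x, _, h1, h2⟩; exact ⟨x, h1, h2⟩
  · rintro ⟨x, h1, h2⟩
    refine ⟨?_, x, (mem_lt h1).le, h1, h2⟩
    rw [h2]
    refine lt_of_le_of_lt ?_ (lt_succ _)
    have := PAExp.mul_le_mul' _ _ 2 (mem_lt h1).le
    rw [mul_comm x, mul_comm K] at this
    exact PAExp.add_le_add' _ _ 1 this

theorem exists_preim (f : MM → MM) (hf : IsTerm (fun v : Fin 1 → MM => f (v 0)))
    (hle : ∀ x, x ≤ f x) (K : MM) : ∃ e : MM, ∀ z, Mem z e ↔ Mem (f z) K := by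
  have h : Int1 (fun z => Mem (f z) K) := Int1.of_delta0 (IsDelta0.mem hf (IsTerm.param K))
  obtain ⟨e, _, he⟩ := h.code K
  refine ⟨e, fun z => ?_⟩
  rw [he]
  exact ⟨fun h => h.2, fun h => ⟨(hle z).trans_lt (mem_lt h), h⟩⟩

/-- Inclusion of coded sets, bounded form. -/
def Sub (a b : MM) : Prop := ∀ x, x ≤ a → Mem x a → Mem x b

theorem sub_iff {a b : MM} : Sub a b ↔ decode a ⊆ decode b :=
  ⟨fun h x hx => h x (mem_lt hx).le hx, fun h x _ hx => h hx⟩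

theorem delta0_sub {k : ℕ} {f g : (Fin k → MM) → MM} (hf : IsTerm f) (hg : IsTerm g) :
    IsDelta0 (fun v => Sub (f v) (g v)) := by
  refine IsDelta0.all hf ?_
  exact (IsDelta0.mem (IsTerm.var 0) hf.tail).imp (IsDelta0.mem (IsTerm.var 0) hg.tail)

theorem sig1_app4 {k : ℕ} {Φ : (Fin 4 → MM) → Prop} (h : Sig1 Φ) {a b c d : (Fin k → MM) → MM}
    (ha : IsTerm a) (hb : IsTerm b) (hc : IsTerm c) (hd : IsTerm d) :
    Sig1 (fun v => Φ ![a v, b v, c v, d v]) := by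
  refine (h.subst (F := ![a, b, c, d]) ?_).congr fun v => ?_
  · intro i; fin_cases i
    · exact ha
    · exact hb
    · exact hc
    · exact hd
  · have : (![a v, b v, c v, d v] : Fin 4 → MM) =
        fun i => (![a, b, c, d] : Fin 4 → (Fin k → MM) → MM) i v := by
      funext i; fin_cases i <;> rfl
    rw [this]

/-- Reducibility from a curried relation. -/
theorem red_of {A B : Set MM} (Ψ : MM → MM → MM → MM → Prop)
    (hΨ : Sig1 (fun v : Fin 4 → MM => Ψ (v 0) (v 1) (v 2) (v 3)))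
    (h : ∀ K i : MM, (i = 0 ∨ i = 1) → (decode K ⊆ sgn A i ↔
      ∃ p q : MM, Ψ K i p q ∧ decode p ⊆ B ∧ decode q ⊆ Bᶜ)) : Red A B :=
  ⟨fun v => Ψ (v 0) (v 1) (v 2) (v 3), hΨ.isSigma, h⟩

theorem sgn_one {A : Set MM} {z : MM} : z ∈ sgn A 1 ↔ z ∈ A := by
  constructor
  · rintro (⟨_, h⟩ | ⟨h, _⟩)
    · exact h
    · exact absurd h one_ne_zero'
  · intro h; exact Or.inl ⟨rfl, h⟩

theorem sgn_zero {A : Set MM} {z : MM} : z ∈ sgn A 0 ↔ z ∉ A := by
  constructor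
  · rintro (⟨h, _⟩ | ⟨_, h⟩)
    · exact absurd h.symm one_ne_zero'
    · exact h
  · intro h; exact Or.inr ⟨rfl, h⟩

theorem red_refl (A : Set MM) : Red A A := by
  refine red_of (fun K i p q => (i = 1 ∧ p = K ∧ q = 0) ∨ (i = 0 ∧ q = K ∧ p = 0)) ?_ ?_
  · refine Sig1.of_delta0 ?_
    refine IsDelta0.or ?_ ?_
    · exact (IsDelta0.eq (IsTerm.var 1) (IsTerm.param 1)).and
        ((IsDelta0.eq (IsTerm.var 2) (IsTerm.var 0)).and
          (IsDelta0.eq (IsTerm.var 3) (IsTerm.param 0)))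
    · exact (IsDelta0.eq (IsTerm.var 1) (IsTerm.param 0)).and
        ((IsDelta0.eq (IsTerm.var 3) (IsTerm.var 0)).and
          (IsDelta0.eq (IsTerm.var 2) (IsTerm.param 0)))
  · rintro K i (rfl | rfl)
    · constructor
      · intro h
        refine ⟨0, K, Or.inr ⟨rfl, rfl, rfl⟩, fun x hx => absurd hx (not_mem_zero x),
          fun x hx => sgn_zero.1 (h hx)⟩
      · rintro ⟨p, q, (⟨h, _⟩ | ⟨_, rfl, _⟩), _, h2⟩
        · exact absurd h.symm one_ne_zero'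
        · exact fun x hx => sgn_zero.2 (h2 hx)
    · constructor
      · intro h
        refine ⟨K, 0, Or.inl ⟨rfl, rfl, rfl⟩, fun x hx => sgn_one.1 (h hx),
          fun x hx => absurd hx (not_mem_zero x)⟩
      · rintro ⟨p, q, (⟨_, rfl, _⟩ | ⟨h, _⟩), h1, _⟩
        · exact fun x hx => sgn_one.2 (h1 hx)
        · exact absurd h one_ne_zero'

theorem red_trans {A B C : Set MM} (h1 : Red A B) (h2 : Red B C) : Red A C := by
  obtain ⟨Φ, hΦ, h1⟩ := h1
  obtain ⟨Θ, hΘ, h2⟩ := h2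
  have hΦ' := Sig1.of_isSigma hΦ
  have hΘ' := Sig1.of_isSigma hΘ
  refine red_of (fun K i P Q => ∃ p, ∃ q, ∃ p1, ∃ q1, ∃ p2, ∃ q2, Φ ![K, i, p, q] ∧
    Θ ![p, 1, p1, q1] ∧ Θ ![q, 0, p2, q2] ∧ Sub p1 P ∧ Sub p2 P ∧ Sub q1 Q ∧ Sub q2 Q) ?_ ?_
  · refine Sig1.ex ?_
    refine Sig1.ex ?_
    refine Sig1.ex ?_
    refine Sig1.ex ?_
    refine Sig1.ex ?_
    refine Sig1.ex ?_
    -- 0 = q2, 1 = p2, 2 = q1, 3 = p1, 4 = q, 5 = p, 6 = K, 7 = i, 8 = P, 9 = Q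
    refine Sig1.and (sig1_app4 hΦ' (IsTerm.var 6) (IsTerm.var 7) (IsTerm.var 5) (IsTerm.var 4)) ?_
    refine Sig1.and (sig1_app4 hΘ' (IsTerm.var 5) (IsTerm.param 1) (IsTerm.var 3)
      (IsTerm.var 2)) ?_
    refine Sig1.and (sig1_app4 hΘ' (IsTerm.var 4) (IsTerm.param 0) (IsTerm.var 1)
      (IsTerm.var 0)) ?_
    refine Sig1.of_delta0 ?_
    refine IsDelta0.and (delta0_sub (IsTerm.var 3) (IsTerm.var 8)) ?_
    refine IsDelta0.and (delta0_sub (IsTerm.var 1) (IsTerm.var 8)) ?_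
    exact IsDelta0.and (delta0_sub (IsTerm.var 2) (IsTerm.var 9))
      (delta0_sub (IsTerm.var 0) (IsTerm.var 9))
  · intro K i hi
    rw [h1 K i hi]
    constructor
    · rintro ⟨p, q, hpq, hp, hq⟩
      obtain ⟨p1, q1, e1, e2, e3⟩ := (h2 p 1 (Or.inr rfl)).1 (fun x hx => sgn_one.2 (hp hx))
      obtain ⟨p2, q2, d1, d2, d3⟩ := (h2 q 0 (Or.inl rfl)).1 (fun x hx => sgn_zero.2 (hq hx))
      obtain ⟨P, hP⟩ := exists_union p1 p2
      obtain ⟨Q, hQ⟩ := exists_union q1 q2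
      refine ⟨P, Q, ⟨p, q, p1, q1, p2, q2, hpq, e1, d1, ?_, ?_, ?_, ?_⟩, ?_, ?_⟩
      · exact fun x _ hx => (hP x).2 (Or.inl hx)
      · exact fun x _ hx => (hP x).2 (Or.inr hx)
      · exact fun x _ hx => (hQ x).2 (Or.inl hx)
      · exact fun x _ hx => (hQ x).2 (Or.inr hx)
      · intro x hx
        rcases (hP x).1 hx with h | h
        · exact e2 h
        · exact d2 h
      · intro x hx
        rcases (hQ x).1 hx with h | h
        · exact e3 h
        · exact d3 h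
    · rintro ⟨P, Q, ⟨p, q, p1, q1, p2, q2, hpq, e1, d1, s1, s2, s3, s4⟩, hP, hQ⟩
      refine ⟨p, q, hpq, ?_, ?_⟩
      · intro x hx
        exact sgn_one.1 ((h2 p 1 (Or.inr rfl)).2 ⟨p1, q1, e1, (sub_iff.1 s1).trans hP,
          (sub_iff.1 s3).trans hQ⟩ hx)
      · intro x hx
        exact sgn_zero.1 ((h2 q 0 (Or.inl rfl)).2 ⟨p2, q2, d1, (sub_iff.1 s2).trans hP,
          (sub_iff.1 s4).trans hQ⟩ hx)

theorem even_mem_jn {A B : Set MM} {z : MM} : 2 * z ∈ jn A B ↔ z ∈ A := by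
  constructor
  · rintro (⟨y, hy, h⟩ | ⟨y, hy, h⟩)
    · rw [two_mul_inj h]; exact hy
    · exact (two_mul_ne h).elim
  · intro h; exact Or.inl ⟨z, h, rfl⟩

theorem add_one_inj {x y : MM} (h : x + 1 = y + 1) : x = y := PAExp.add_cancel' _ _ _ h

theorem odd_mem_jn {A B : Set MM} {z : MM} : 2 * z + 1 ∈ jn A B ↔ z ∈ B := by
  constructor
  · rintro (⟨y, hy, h⟩ | ⟨y, hy, h⟩)
    · exact (two_mul_ne h.symm).elim
    · rw [two_mul_inj (add_one_inj h)]; exact hy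
  · intro h; exact Or.inr ⟨z, h, rfl⟩

theorem red_left (A B : Set MM) : Red A (jn A B) := by
  refine red_of (fun K i p q =>
    (i = 1 ∧ ∀ x, x ≤ K → (Mem x K → Mem (2 * x) p)) ∨
    (i = 0 ∧ ∀ x, x ≤ K → (Mem x K → Mem (2 * x) q))) ?_ ?_
  · refine Sig1.of_delta0 ?_
    refine IsDelta0.or ?_ ?_
    · refine (IsDelta0.eq (IsTerm.var 1) (IsTerm.param 1)).and ?_
      refine IsDelta0.all (IsTerm.var 0) ?_
      exact (IsDelta0.mem (IsTerm.var 0) (IsTerm.var 1)).imp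
        (IsDelta0.mem ((IsTerm.param 2).mul (IsTerm.var 0)) (IsTerm.var 3))
    · refine (IsDelta0.eq (IsTerm.var 1) (IsTerm.param 0)).and ?_
      refine IsDelta0.all (IsTerm.var 0) ?_
      exact (IsDelta0.mem (IsTerm.var 0) (IsTerm.var 1)).imp
        (IsDelta0.mem ((IsTerm.param 2).mul (IsTerm.var 0)) (IsTerm.var 4))
  · rintro K i (rfl | rfl)
    · constructor
      · intro h
        obtain ⟨e, he⟩ := exists_even K
        refine ⟨0, e, Or.inr ⟨rfl, fun x _ hx => (he _).2 ⟨x, hx, rfl⟩⟩,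
          fun x hx => absurd hx (not_mem_zero x), fun y hy => ?_⟩
        obtain ⟨x, hx, rfl⟩ := (he y).1 hy
        exact fun hc => sgn_zero.1 (h hx) (even_mem_jn.1 hc)
      · rintro ⟨p, q, (⟨h, _⟩ | ⟨_, h⟩), _, h2⟩
        · exact absurd h.symm one_ne_zero'
        · exact fun x hx => sgn_zero.2 fun hc => h2 (h x (mem_lt hx).le hx) (even_mem_jn.2 hc)
    · constructor
      · intro h
        obtain ⟨e, he⟩ := exists_even K
        refine ⟨e, 0, Or.inl ⟨rfl, fun x _ hx => (he _).2 ⟨x, hx, rfl⟩⟩,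
          fun y hy => ?_, fun x hx => absurd hx (not_mem_zero x)⟩
        obtain ⟨x, hx, rfl⟩ := (he y).1 hy
        exact even_mem_jn.2 (sgn_one.1 (h hx))
      · rintro ⟨p, q, (⟨_, h⟩ | ⟨h, _⟩), h1, _⟩
        · exact fun x hx => sgn_one.2 (even_mem_jn.1 (h1 (h x (mem_lt hx).le hx)))
        · exact absurd h one_ne_zero'

theorem red_right (A B : Set MM) : Red B (jn A B) := by
  refine red_of (fun K i p q =>
    (i = 1 ∧ ∀ x, x ≤ K → (Mem x K → Mem (2 * x + 1) p)) ∨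
    (i = 0 ∧ ∀ x, x ≤ K → (Mem x K → Mem (2 * x + 1) q))) ?_ ?_
  · refine Sig1.of_delta0 ?_
    refine IsDelta0.or ?_ ?_
    · refine (IsDelta0.eq (IsTerm.var 1) (IsTerm.param 1)).and ?_
      refine IsDelta0.all (IsTerm.var 0) ?_
      exact (IsDelta0.mem (IsTerm.var 0) (IsTerm.var 1)).imp
        (IsDelta0.mem (((IsTerm.param 2).mul (IsTerm.var 0)).add (IsTerm.param 1))
          (IsTerm.var 3))
    · refine (IsDelta0.eq (IsTerm.var 1) (IsTerm.param 0)).and ?_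
      refine IsDelta0.all (IsTerm.var 0) ?_
      exact (IsDelta0.mem (IsTerm.var 0) (IsTerm.var 1)).imp
        (IsDelta0.mem (((IsTerm.param 2).mul (IsTerm.var 0)).add (IsTerm.param 1))
          (IsTerm.var 4))
  · rintro K i (rfl | rfl)
    · constructor
      · intro h
        obtain ⟨e, he⟩ := exists_odd K
        refine ⟨0, e, Or.inr ⟨rfl, fun x _ hx => (he _).2 ⟨x, hx, rfl⟩⟩,
          fun x hx => absurd hx (not_mem_zero x), fun y hy => ?_⟩
        obtain ⟨x, hx, rfl⟩ := (he y).1 hy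
        exact fun hc => sgn_zero.1 (h hx) (odd_mem_jn.1 hc)
      · rintro ⟨p, q, (⟨h, _⟩ | ⟨_, h⟩), _, h2⟩
        · exact absurd h.symm one_ne_zero'
        · exact fun x hx => sgn_zero.2 fun hc => h2 (h x (mem_lt hx).le hx) (odd_mem_jn.2 hc)
    · constructor
      · intro h
        obtain ⟨e, he⟩ := exists_odd K
        refine ⟨e, 0, Or.inl ⟨rfl, fun x _ hx => (he _).2 ⟨x, hx, rfl⟩⟩,
          fun y hy => ?_, fun x hx => absurd hx (not_mem_zero x)⟩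
        obtain ⟨x, hx, rfl⟩ := (he y).1 hy
        exact odd_mem_jn.2 (sgn_one.1 (h hx))
      · rintro ⟨p, q, (⟨_, h⟩ | ⟨h, _⟩), h1, _⟩
        · exact fun x hx => sgn_one.2 (odd_mem_jn.1 (h1 (h x (mem_lt hx).le hx)))
        · exact absurd h one_ne_zero'

theorem even_mem_sgn {A B : Set MM} {z i : MM} : 2 * z ∈ sgn (jn A B) i ↔ z ∈ sgn A i := by
  unfold sgn
  simp only [Set.mem_setOf_eq, even_mem_jn]

theorem odd_mem_sgn {A B : Set MM} {z i : MM} : 2 * z + 1 ∈ sgn (jn A B) i ↔ z ∈ sgn B i := by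
  unfold sgn
  simp only [Set.mem_setOf_eq, odd_mem_jn]

theorem red_join {A B C : Set MM} (h1 : Red A C) (h2 : Red B C) : Red (jn A B) C := by
  obtain ⟨Φ, hΦ, h1⟩ := h1
  obtain ⟨Θ, hΘ, h2⟩ := h2
  have hΦ' := Sig1.of_isSigma hΦ
  have hΘ' := Sig1.of_isSigma hΘ
  refine red_of (fun K i P Q => ∃ K0, ∃ K1, ∃ p1, ∃ q1, ∃ p2, ∃ q2, Φ ![K0, i, p1, q1] ∧
    Θ ![K1, i, p2, q2] ∧ (Sub p1 P ∧ Sub p2 P ∧ Sub q1 Q ∧ Sub q2 Q ∧
    ∀ x, x ≤ K → (Mem x K → ∃ z, z ≤ x ∧ ((x = 2 * z ∧ Mem z K0) ∨ (x = 2 * z + 1 ∧ Mem z K1)))))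
    ?_ ?_
  · refine Sig1.ex ?_
    refine Sig1.ex ?_
    refine Sig1.ex ?_
    refine Sig1.ex ?_
    refine Sig1.ex ?_
    refine Sig1.ex ?_
    -- 0 = q2, 1 = p2, 2 = q1, 3 = p1, 4 = K1, 5 = K0, 6 = K, 7 = i, 8 = P, 9 = Q
    refine Sig1.and (sig1_app4 hΦ' (IsTerm.var 5) (IsTerm.var 7) (IsTerm.var 3) (IsTerm.var 2)) ?_
    refine Sig1.and (sig1_app4 hΘ' (IsTerm.var 4) (IsTerm.var 7) (IsTerm.var 1)
      (IsTerm.var 0)) ?_
    refine Sig1.of_delta0 ?_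
    refine IsDelta0.and (delta0_sub (IsTerm.var 3) (IsTerm.var 8)) ?_
    refine IsDelta0.and (delta0_sub (IsTerm.var 1) (IsTerm.var 8)) ?_
    refine IsDelta0.and (delta0_sub (IsTerm.var 2) (IsTerm.var 9)) ?_
    refine IsDelta0.and (delta0_sub (IsTerm.var 0) (IsTerm.var 9)) ?_
    refine IsDelta0.all (IsTerm.var 6) ?_
    refine (IsDelta0.mem (IsTerm.var 0) (IsTerm.var 7)).imp ?_
    refine IsDelta0.ex (IsTerm.var 0) ?_
    refine IsDelta0.or ?_ ?_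
    · exact (IsDelta0.eq (IsTerm.var 1) ((IsTerm.param 2).mul (IsTerm.var 0))).and
        (IsDelta0.mem (IsTerm.var 0) (IsTerm.var 7))
    · exact (IsDelta0.eq (IsTerm.var 1)
        (((IsTerm.param 2).mul (IsTerm.var 0)).add (IsTerm.param 1))).and
        (IsDelta0.mem (IsTerm.var 0) (IsTerm.var 6))
  · intro K i hi
    constructor
    · intro h
      obtain ⟨K0, hK0⟩ := exists_preim (fun z => 2 * z) ((IsTerm.param 2).mul (IsTerm.var 0))
        le_two_mul K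
      obtain ⟨K1, hK1⟩ := exists_preim (fun z => 2 * z + 1)
        (((IsTerm.param 2).mul (IsTerm.var 0)).add (IsTerm.param 1))
        (fun x => (le_two_mul x).trans (le_add_right' _ _)) K
      obtain ⟨p1, q1, e1, e2, e3⟩ := (h1 K0 i hi).1 (fun z hz => even_mem_sgn.1 (h ((hK0 z).1 hz)))
      obtain ⟨p2, q2, d1, d2, d3⟩ := (h2 K1 i hi).1 (fun z hz => odd_mem_sgn.1 (h ((hK1 z).1 hz)))
      obtain ⟨P, hP⟩ := exists_union p1 p2
      obtain ⟨Q, hQ⟩ := exists_union q1 q2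
      refine ⟨P, Q, ⟨K0, K1, p1, q1, p2, q2, e1, d1, ?_, ?_, ?_, ?_, ?_⟩, ?_, ?_⟩
      · exact fun x _ hx => (hP x).2 (Or.inl hx)
      · exact fun x _ hx => (hP x).2 (Or.inr hx)
      · exact fun x _ hx => (hQ x).2 (Or.inl hx)
      · exact fun x _ hx => (hQ x).2 (Or.inr hx)
      · intro x _ hx
        obtain ⟨z, rfl | rfl⟩ := parity x
        · exact ⟨z, le_two_mul z, Or.inl ⟨rfl, (hK0 z).2 hx⟩⟩
        · exact ⟨z, (le_two_mul z).trans (le_add_right' _ _), Or.inr ⟨rfl, (hK1 z).2 hx⟩⟩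
      · intro x hx
        rcases (hP x).1 hx with h | h
        · exact e2 h
        · exact d2 h
      · intro x hx
        rcases (hQ x).1 hx with h | h
        · exact e3 h
        · exact d3 h
    · rintro ⟨P, Q, ⟨K0, K1, p1, q1, p2, q2, e1, d1, s1, s2, s3, s4, hK⟩, hP, hQ⟩
      intro x hx
      obtain ⟨z, _, (⟨rfl, hz⟩ | ⟨rfl, hz⟩)⟩ := hK x (mem_lt hx).le hx
      · exact even_mem_sgn.2 ((h1 K0 i hi).2 ⟨p1, q1, e1, (sub_iff.1 s1).trans hP,
          (sub_iff.1 s3).trans hQ⟩ hz)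
      · exact odd_mem_sgn.2 ((h2 K1 i hi).2 ⟨p2, q2, d1, (sub_iff.1 s2).trans hP,
          (sub_iff.1 s4).trans hQ⟩ hz)

/-- R: basic properties of strong reducibility. -/
theorem redBasics_proof : RedBasics :=
  ⟨red_refl, fun _ _ _ => red_trans, red_left, red_right, fun _ _ _ => red_join⟩

end Pool.Agent.BSig.H14
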