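import Pool.Agent.Helper37_BSig.Stmts

/-!
# UnbeatW: unbeatable conditions compute `T`
-/

namespace Pool.Agent.BSig.H14

open Filter Cardinal Pool.Agent.BSig

theorem fam_mono {φ : (Fin 5 → MM) → Prop}
    (h : ∀ l t, Fam φ l t ⊆ Fam φ (l + 1) t) {l n : ℕ} (hln : l ≤ n) (t : MM) :
    Fam φ l t ⊆ Fam φ n t := by
  induction hln with
  | refl => exact fun _ h => h
  | step _ ih => exact ih.trans (h _ _)

/-- C12. -/
theorem unbeatW_proof (hEnum : EnumStmt) (hClosed : ClosedStmt) (hRunS : RunStmt)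
    (hLC : LemmaC) (hFrcS : FrcStmt) (hLK : LemmaK) (hFresh : FamFresh) (hCode : CodeStmt)
    (hRep : RepBasics) (hKil : KilStmt) (hOm : OmegaBasics) : UnbeatW := by
  classical
  intro φ hφ T c hc hcard H1 H2 H3
  obtain ⟨x, d, hx, hcl⟩ := hEnum φ hφ
  have hC : ClosedSeq φ x := hClosed φ hφ x hcl
  obtain ⟨E, hE⟩ := hCode.2.1 d
  obtain ⟨V1, hV1⟩ := hCode.1 {i | (x i, true) ∈ c}
  obtain ⟨V0, hV0⟩ := hCode.1 {i | (x i, false) ∈ c}
  have hR := hRunS φ hφ x d hx E hE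
  obtain ⟨hlit, hlitinj, hrepex, -, -, -, -⟩ := hRep
  let Ψ : MM → MM → MM → Prop := fun n y t => ∃ B, ∃ Tw, ∃ X, ∃ r, ∃ α,
    (TowOK Tw ∧ Mem (pr n α) Tw ∧ Run φ B Tw X E n ∧ LitRun r X V0 V1 n ∧ Frc φ α n y r t)
  have hΨ : Sig1 (fun v : Fin 3 → MM => Ψ (v 0) (v 1) (v 2)) := by
    refine Sig1.ex ?_
    refine Sig1.ex ?_
    refine Sig1.ex ?_
    refine Sig1.ex ?_
    refine Sig1.ex ?_
    refine Sig1.of_delta0 ?_
    -- 0 = α, 1 = r, 2 = X, 3 = Tw, 4 = B, 5 = n, 6 = y, 7 = t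
    refine (IsDelta0.towOK (IsTerm.var 3)).and ?_
    refine (IsDelta0.mem (IsTerm.pr (IsTerm.var 5) (IsTerm.var 0)) (IsTerm.var 3)).and ?_
    refine (IsDelta0.run hφ (IsTerm.var 4) (IsTerm.var 3) (IsTerm.var 2) (IsTerm.param E)
      (IsTerm.var 5)).and ?_
    refine (IsDelta0.litRun (IsTerm.var 1) (IsTerm.var 2) (IsTerm.param V0) (IsTerm.param V1)
      (IsTerm.var 5)).and ?_
    exact IsDelta0.frc hφ (IsTerm.var 0) (IsTerm.var 5) (IsTerm.var 6) (IsTerm.var 1)
      (IsTerm.var 7)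
  refine ⟨fun v => Ψ (v 0) (v 1) (v 2), hΨ.isSigma, fun t => ?_⟩
  constructor
  · intro ht
    obtain ⟨l, r, hrc, hri, hF⟩ := hLC φ hφ x hC T c hc hcard H1 H2 H3 t ht
    obtain ⟨n, hln, hn⟩ : ∃ n, l ≤ n ∧ ∀ p ∈ r, ∃ i, i < n ∧ p.1 = x i := by
      choose! f hf using hri
      refine ⟨max l (r.sup f + 1), le_max_left _ _, fun p hp => ⟨f p, ?_, hf p hp⟩⟩
      exact lt_of_lt_of_le (Nat.lt_succ_of_le (Finset.le_sup hp)) (le_max_right _ _)
    have hF' : Forces φ n r t := by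
      intro s hs hrs
      obtain ⟨F, hF1, hF2⟩ := hF s hs hrs
      exact ⟨F, fam_mono (hKil φ hφ).1 hln t hF1, hF2⟩
    obtain ⟨rc, hrcode⟩ := hrepex r
    obtain ⟨y, hy, hyF⟩ := (hFrcS φ hφ n r rc t hrcode).2 hF'
    obtain ⟨⟨B, Tw, X, hTw, hRun, hX⟩, -⟩ := hR n
    refine ⟨n, y, hy, B, Tw, X, rc, aa n, hTw.1, hTw.2 n le_rfl, hRun, ?_, hyF⟩
    intro u _ hu
    obtain ⟨p, rfl⟩ := hlit u
    have hp : p ∈ r := by
      have : p ∈ (r : Set (MM × Bool)) := by rw [hrcode]; exact hu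
      exact this
    obtain ⟨i, hin, hpi⟩ := hn p hp
    have hXi : Mem (pr (i : MM) (x i)) X := (hX i hin (x i)).2 rfl
    refine ⟨(i : MM), natCast_lt.2 hin, x i, (le_pr_right _ _).trans (mem_lt hXi).le, hXi, ?_⟩
    have hpc : p ∈ c := hrc hp
    obtain ⟨p1, p2⟩ := p
    simp only at hpi
    subst hpi
    cases p2 with
    | true =>
      left
      refine ⟨(hV1 i).2 hpc, ?_⟩
      simp [lit]
    | false =>
      right
      refine ⟨(hV0 i).2 hpc, ?_⟩
      simp [lit]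
  · rintro ⟨n, y, hy, B, Tw, X, r, α, hTw, hα, hRun, hLit, hFrc⟩
    have hα' : α = aa n := hOm.2.2.1 Tw hTw n α hα
    have hX : GoodX X x n := (hR n).2 B Tw X hTw hRun
    have key : ∀ p ∈ LS r, p ∈ c ∧ ∃ i ∈ Finset.range n, p = (x i, true) ∨ p = (x i, false) := by
      intro p hp
      obtain ⟨i, hi, z, _, hz, h⟩ := hLit (lit p) (mem_lt hp).le hp
      obtain ⟨j, hj, rfl⟩ := lt_natCast_iff.1 hi
      have hzx : z = x j := (hX j hj z).1 hz
      subst hzx
      rcases h with ⟨h1, h2⟩ | ⟨h1, h2⟩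
      · have : p = (x j, true) := by
          apply hlitinj
          rw [h2]; simp [lit]
        rw [this]
        exact ⟨(hV1 j).1 h1, j, Finset.mem_range.2 hj, Or.inl rfl⟩
      · have : p = (x j, false) := by
          apply hlitinj
          rw [h2]; simp [lit]
        rw [this]
        exact ⟨(hV0 j).1 h1, j, Finset.mem_range.2 hj, Or.inr rfl⟩
    have hfin : (LS r).Finite := by
      refine Set.Finite.subset (s := (((Finset.range n).image fun i => (x i, true)) ∪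
        ((Finset.range n).image fun i => (x i, false)) : Finset (MM × Bool)))
        (Finset.finite_toSet _) ?_
      intro p hp
      obtain ⟨_, i, hi, h | h⟩ := key p hp
      · rw [h]; simp only [Finset.coe_union, Set.mem_union]
        exact Or.inl (Finset.mem_coe.2 (Finset.mem_image_of_mem _ hi))
      · rw [h]; simp only [Finset.coe_union, Set.mem_union]
        exact Or.inr (Finset.mem_coe.2 (Finset.mem_image_of_mem _ hi))
    let S : Finset (MM × Bool) := hfin.toFinset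
    have hS : Rep r S := by
      unfold Rep; exact hfin.coe_toFinset
    have hSc : (S : Set (MM × Bool)) ⊆ c := by
      intro p hp
      rw [hS] at hp
      exact (key p hp).1
    rw [hα'] at hFrc
    have hForc : Forces φ n S t := (hFrcS φ hφ n S r t hS).1 ⟨y, hy, hFrc⟩
    by_contra htT
    have hkill : ∀ F ∈ Fam φ n t, Conf (F : Set (MM × Bool)) c := by
      intro F hF
      by_contra h
      exact htT (H1 n t F hF h)
    obtain ⟨s, hsc, hs⟩ := hLK MM n (Fam φ n t) (fun F hF => hF.1) (hFresh φ hφ n t) c hcard hkill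
    have hcons : Consis ((s ∪ S : Finset (MM × Bool)) : Set (MM × Bool)) := by
      rintro ⟨z, b, h1, h2⟩
      have hsub : ((s ∪ S : Finset (MM × Bool)) : Set (MM × Bool)) ⊆ c := by
        rw [Finset.coe_union]; exact Set.union_subset hsc hSc
      exact hc ⟨z, b, hsub h1, hsub h2⟩
    obtain ⟨F, hF, hnF⟩ := hForc (s ∪ S) hcons Finset.subset_union_right
    obtain ⟨z, b, h1, h2⟩ := hs F hF
    exact hnF ⟨z, b, h1, by rw [Finset.coe_union]; exact Or.inl h2⟩

end Pool.Agent.BSig.H14
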